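import Pool.Agent.W306.EL.Stm

namespace Pool.Agent.W579.EL

open Pool.Agent.W306.EL

noncomputable def cx (u v : ℂ) : ℝ := u.re * v.im - u.im * v.re

theorem cx_eq (u v : ℂ) : cx u v = ‖u‖ * ‖v‖ * Real.sin (Complex.arg v - Complex.arg u) := by
  unfold cx
  rw [Real.sin_sub, ← Complex.norm_mul_cos_arg u, ← Complex.norm_mul_sin_arg u,
    ← Complex.norm_mul_cos_arg v, ← Complex.norm_mul_sin_arg v]
  simp only [Complex.norm_mul_cos_arg, Complex.norm_mul_sin_arg]
  have h1 := Complex.norm_mul_cos_arg u
  have h2 := Complex.norm_mul_sin_arg u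
  have h3 := Complex.norm_mul_cos_arg v
  have h4 := Complex.norm_mul_sin_arg v
  linear_combination (-(‖v‖ * Real.sin v.arg)) * h1 - u.re * h4 + (‖v‖ * Real.cos v.arg) * h2
    + u.im * h3

theorem sinpos {u v : ℂ} (h : 0 < cx u v) : 0 < Real.sin (Complex.arg v - Complex.arg u) := by
  rw [cx_eq] at h
  by_contra h1
  push Not at h1
  have : ‖u‖ * ‖v‖ * Real.sin (Complex.arg v - Complex.arg u) ≤ 0 :=
    mul_nonpos_of_nonneg_of_nonpos (by positivity) h1
  linarith

theorem lt_pi_of {x : ℝ} (h0 : 0 < x) (h2 : x < 2 * Real.pi) (h : 0 < Real.sin x) :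
    x < Real.pi := by
  by_contra h1
  push Not at h1
  have h3 : Real.sin x ≤ 0 := by
    have h4 : Real.sin x = -Real.sin (x - Real.pi) := by rw [Real.sin_sub_pi]; ring
    rw [h4]
    have h5 : 0 ≤ Real.sin (x - Real.pi) :=
      Real.sin_nonneg_of_nonneg_of_le_pi (by linarith) (by linarith)
    linarith
  linarith

theorem pos_of {x : ℝ} (h0 : -Real.pi ≤ x) (h : 0 < Real.sin x) : 0 < x := by
  by_contra h1
  push Not at h1
  have h3 : Real.sin x ≤ 0 := Real.sin_nonpos_of_nonpos_of_neg_pi_le h1 h0
  linarith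

theorem neg_of {x : ℝ} (h0 : -(2 * Real.pi) < x) (h1 : x ≤ 0) (h : 0 < Real.sin x) :
    x < -Real.pi := by
  by_contra h2
  push Not at h2
  have := pos_of h2 h
  linarith

theorem sumge {α β : ℝ} (h0 : 0 < β) (h1 : β < α) (h2 : α < Real.pi)
    (h : Real.sin α ≤ Real.sin β) : Real.pi ≤ α + β := by
  have e : Real.sin α - Real.sin β = 2 * Real.sin ((α - β) / 2) * Real.cos ((α + β) / 2) :=
    Real.sin_sub_sin α β
  have s : 0 < Real.sin ((α - β) / 2) :=
    Real.sin_pos_of_pos_of_lt_pi (by linarith) (by linarith)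
  by_contra h3
  push Not at h3
  have c : 0 < Real.cos ((α + β) / 2) :=
    Real.cos_pos_of_mem_Ioo ⟨by linarith, by linarith⟩
  have := mul_pos (mul_pos two_pos s) c
  linarith

theorem sumle {α β : ℝ} (h0 : 0 < β) (h1 : β < α) (h2 : α < Real.pi)
    (h : Real.sin β ≤ Real.sin α) : α + β ≤ Real.pi := by
  have e : Real.sin α - Real.sin β = 2 * Real.sin ((α - β) / 2) * Real.cos ((α + β) / 2) :=
    Real.sin_sub_sin α β
  have s : 0 < Real.sin ((α - β) / 2) :=
    Real.sin_pos_of_pos_of_lt_pi (by linarith) (by linarith)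
  by_contra h3
  push Not at h3
  have c : Real.cos ((α + β) / 2) < 0 :=
    Real.cos_neg_of_pi_div_two_lt_of_lt (by linarith) (by linarith)
  have := mul_neg_of_pos_of_neg (mul_pos two_pos s) c
  linarith

/-- law of sines: `u`, `v`, `w = u + v`, angle at the end -/
theorem law1 {u v w : ℂ} (hw : w = u + v) (hc : 0 < cx u v) :
    ‖u‖ * Real.sin (v.arg - u.arg) = ‖w‖ * Real.sin (v.arg - w.arg) := by
  have h1 := cx_eq u v
  have h2 := cx_eq w v
  have h3 : cx w v = cx u v := by
    rw [hw]; unfold cx; simp only [Complex.add_re, Complex.add_im]; ring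
  have hv : ‖v‖ ≠ 0 := by
    intro h
    rw [h1, h] at hc
    simp at hc
  have h4 : ‖v‖ * (‖u‖ * Real.sin (v.arg - u.arg)) = ‖v‖ * (‖w‖ * Real.sin (v.arg - w.arg)) := by
    linarith
  exact mul_left_cancel₀ hv h4

theorem law2 {u v w : ℂ} (hw : w = u + v) (hc : 0 < cx u v) :
    ‖v‖ * Real.sin (v.arg - u.arg) = ‖w‖ * Real.sin (w.arg - u.arg) := by
  have h1 := cx_eq u v
  have h2 := cx_eq u w
  have h3 : cx u w = cx u v := by
    rw [hw]; unfold cx; simp only [Complex.add_re, Complex.add_im]; ring
  have hv : ‖u‖ ≠ 0 := by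
    intro h
    rw [h1, h] at hc
    simp at hc
  have h4 : ‖u‖ * (‖v‖ * Real.sin (v.arg - u.arg)) = ‖u‖ * (‖w‖ * Real.sin (w.arg - u.arg)) := by
    linarith
  exact mul_left_cancel₀ hv h4

theorem cmp_ge {a b s t : ℝ} (h : a * s = b * t) (hs : 0 < s) (hb : 0 ≤ b) (hab : b ≤ a)
    (ha : 0 < a) : s ≤ t := by
  by_contra h1
  push Not at h1
  have h2 : b * t ≤ b * s := mul_le_mul_of_nonneg_left h1.le hb
  have h3 : b * s ≤ a * s := mul_le_mul_of_nonneg_right hab hs.le
  rcases eq_or_lt_of_le hb with h4 | h4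
  · rw [← h4] at h
    have := mul_pos ha hs
    linarith
  · have := mul_lt_mul_of_pos_left h1 h4
    linarith

/-- the point as a complex number -/
noncomputable def zz (x : EuclideanSpace ℝ (Fin 2)) : ℂ := ⟨x 0, x 1⟩

noncomputable def qq (w : ℂ) (x y : EuclideanSpace ℝ (Fin 2)) : ℂ :=
  (zz y - zz x) * (starRingEnd ℂ) w

theorem qq_add (w : ℂ) (x y z : EuclideanSpace ℝ (Fin 2)) : qq w x z = qq w x y + qq w y z := by
  unfold qq; ring

theorem cx_qq (w : ℂ) (x y z : EuclideanSpace ℝ (Fin 2)) :
    cx (qq w x y) (qq w y z) = (w.re ^ 2 + w.im ^ 2) * cr x y z := by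
  unfold cx qq cr zz
  simp only [Complex.mul_re, Complex.mul_im, Complex.sub_re, Complex.sub_im, Complex.conj_re,
    Complex.conj_im]
  ring

theorem cx_qq2 (w : ℂ) (x y z : EuclideanSpace ℝ (Fin 2)) :
    cx (qq w x y) (qq w x z) = (w.re ^ 2 + w.im ^ 2) * cr x y z := by
  unfold cx qq cr zz
  simp only [Complex.mul_re, Complex.mul_im, Complex.sub_re, Complex.sub_im, Complex.conj_re,
    Complex.conj_im]
  ring

theorem cx_qq3 (w : ℂ) (x y z : EuclideanSpace ℝ (Fin 2)) :
    cx (qq w x z) (qq w y z) = (w.re ^ 2 + w.im ^ 2) * cr x y z := by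
  unfold cx qq cr zz
  simp only [Complex.mul_re, Complex.mul_im, Complex.sub_re, Complex.sub_im, Complex.conj_re,
    Complex.conj_im]
  ring

theorem norm_zz (x y : EuclideanSpace ℝ (Fin 2)) : ‖zz y - zz x‖ = dist x y := by
  rw [EuclideanSpace.dist_eq, Fin.sum_univ_two, Real.dist_eq, Real.dist_eq, sq_abs, sq_abs,
    Complex.norm_eq_sqrt_sq_add_sq]
  unfold zz
  simp only [Complex.sub_re, Complex.sub_im]
  congr 1
  ring

theorem norm_qq (w : ℂ) (x y : EuclideanSpace ℝ (Fin 2)) : ‖qq w x y‖ = dist x y * ‖w‖ := by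
  unfold qq
  rw [norm_mul, norm_zz, RCLike.norm_conj]

theorem t_H6 : S_H6 := by
  intro n p hP a b c d e f hab hbc hcd hde hef hfa h1 h2
  by_contra h3
  rw [not_lt, le_min_iff] at h3
  obtain ⟨h3, h4⟩ := h3
  obtain ⟨-, hP⟩ := hP
  set w : ℂ := zz (p f) - zz (p a) with hw
  have hw0 : w ≠ 0 := by
    intro h
    have h5 := hP a b f hab (by omega) hfa
    have h6 := congrArg Complex.re h
    have h7 := congrArg Complex.im h
    rw [hw] at h6 h7
    simp only [zz, Complex.sub_re, Complex.sub_im, Complex.zero_re, Complex.zero_im] at h6 h7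
    unfold cr at h5
    rw [h6, h7] at h5
    simp at h5
  have hwn : 0 < ‖w‖ := norm_pos_iff.mpr hw0
  have hk : 0 < w.re ^ 2 + w.im ^ 2 := by
    rcases eq_or_ne w.re 0 with h | h
    · have h' : w.im ≠ 0 := fun h' => hw0 (Complex.ext h h')
      positivity
    · positivity
  let q : ℕ → ℕ → ℂ := fun x y => qq w (p x) (p y)
  let θ : ℕ → ℕ → ℝ := fun x y => (q x y).arg
  have c1 : ∀ x y z, x < y → y < z → z < x + n → 0 < cx (q x y) (q y z) := by
    intro x y z hx hy hz
    show 0 < cx (qq w (p x) (p y)) (qq w (p y) (p z))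
    rw [cx_qq]
    exact mul_pos hk (hP x y z hx hy hz)
  have c2 : ∀ x y z, x < y → y < z → z < x + n → 0 < cx (q x y) (q x z) := by
    intro x y z hx hy hz
    show 0 < cx (qq w (p x) (p y)) (qq w (p x) (p z))
    rw [cx_qq2]
    exact mul_pos hk (hP x y z hx hy hz)
  have c3 : ∀ x y z, x < y → y < z → z < x + n → 0 < cx (q x z) (q y z) := by
    intro x y z hx hy hz
    show 0 < cx (qq w (p x) (p z)) (qq w (p y) (p z))
    rw [cx_qq3]
    exact mul_pos hk (hP x y z hx hy hz)
  have s1 : ∀ x y z, x < y → y < z → z < x + n → 0 < Real.sin (θ y z - θ x y) :=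
    fun x y z hx hy hz => sinpos (c1 x y z hx hy hz)
  have s2 : ∀ x y z, x < y → y < z → z < x + n → 0 < Real.sin (θ x z - θ x y) :=
    fun x y z hx hy hz => sinpos (c2 x y z hx hy hz)
  have s3 : ∀ x y z, x < y → y < z → z < x + n → 0 < Real.sin (θ y z - θ x z) :=
    fun x y z hx hy hz => sinpos (c3 x y z hx hy hz)
  have hlo : ∀ x y, -Real.pi < θ x y := fun x y => Complex.neg_pi_lt_arg _
  have hhi : ∀ x y, θ x y ≤ Real.pi := fun x y => Complex.arg_le_pi _
  have hpi := Real.pi_pos
  have haf : θ a f = 0 := by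
    show (qq w (p a) (p f)).arg = 0
    have : qq w (p a) (p f) = ((w.re ^ 2 + w.im ^ 2 : ℝ) : ℂ) := by
      unfold qq
      rw [← hw]
      apply Complex.ext
      · simp only [Complex.mul_re, Complex.conj_re, Complex.conj_im, Complex.ofReal_re]
        ring
      · simp only [Complex.mul_im, Complex.conj_re, Complex.conj_im, Complex.ofReal_im]
        ring
    rw [this]
    exact Complex.arg_ofReal_of_nonneg hk.le
  have na : ∀ x, a < x → x < f → θ a x < 0 := by
    intro x hx hy
    have h := s2 a x f hx hy hfa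
    rw [haf] at h
    have := pos_of (by linarith [hhi a x]) h
    linarith
  have pf : ∀ x, a < x → x < f → 0 < θ x f := by
    intro x hx hy
    have h := s3 a x f hx hy hfa
    rw [haf] at h
    have := pos_of (by linarith [hlo x f]) h
    linarith
  have k1 : ∀ x y, a < x → x < y → y < f → θ x y < θ x f := by
    intro x y hx hy hz
    have h := pos_of (by linarith [pf x hx (hy.trans hz), hhi x y]) (s2 x y f hy hz (by omega))
    linarith
  have k2 : ∀ x y, a < x → x < y → y < f → θ a y < θ x y := by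
    intro x y hx hy hz
    have h := pos_of (by linarith [na y (hx.trans hy) hz, hlo x y]) (s3 a x y hx hy (by omega))
    linarith
  have k3 : ∀ x y z, a < x → x < y → y < z → z < f → θ x y < θ x z := by
    intro x y z hx hy hz hf
    by_contra h
    push Not at h
    have h5 := neg_of (by linarith [hlo x z, hhi x y]) (by linarith) (s2 x y z hy hz (by omega))
    have h6 := pf x hx (by omega)
    have h7 := lt_pi_of (by linarith [hhi x y]) (by linarith [hhi x f, hlo x z])
      (s2 x z f (by omega) hf (by omega))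
    have h8 := k1 x y hx hy (by omega)
    linarith
  have k4 : ∀ x y z, a < x → x < y → y < z → z < f → θ x z < θ y z := by
    intro x y z hx hy hz hf
    by_contra h
    push Not at h
    have h5 := neg_of (by linarith [hlo y z, hhi x z]) (by linarith) (s3 x y z hy hz (by omega))
    have h6 := k2 y z (by omega) hz hf
    have h7 := lt_pi_of (by linarith) (by linarith [hhi x z, hlo a z])
      (s3 a x z hx (by omega) (by omega))
    linarith
  have nq : ∀ x y, ‖q x y‖ = dist (p x) (p y) * ‖w‖ := fun x y => norm_qq w (p x) (p y)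
  -- T1
  have T1 : Real.pi ≤ (θ d e - θ b d) + (θ d e - θ b e) := by
    have m1 := k3 b d e hab (by omega) hde (by omega)
    have m2 := k4 b d e hab (by omega) hde (by omega)
    have m3 := s1 b d e (by omega) hde (by omega)
    refine sumge (by linarith) (by linarith)
      (lt_pi_of (by linarith) (by linarith [hhi d e, hlo b d]) m3) ?_
    refine cmp_ge (law1 (qq_add w (p b) (p d) (p e)) (c1 b d e (by omega) hde (by omega))) m3
      (norm_nonneg _) ?_ ?_
    · have e1 := nq b d
      have e2 := nq b e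
      show ‖q b e‖ ≤ ‖q b d‖
      rw [e1, e2]
      exact mul_le_mul_of_nonneg_right h3 hwn.le
    · rw [norm_pos_iff]
      intro h
      have h5 := c1 b d e (by omega) hde (by omega)
      have h6 : q b d = 0 := h
      rw [h6] at h5
      simp [cx] at h5
  have T2 : Real.pi ≤ (θ c e - θ b c) + (θ b e - θ b c) := by
    have m1 := k3 b c e hab hbc (by omega) (by omega)
    have m2 := k4 b c e hab hbc (by omega) (by omega)
    have m3 := s1 b c e hbc (by omega) (by omega)
    refine sumge (by linarith) (by linarith)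
      (lt_pi_of (by linarith) (by linarith [hhi c e, hlo b c]) m3) ?_
    refine cmp_ge (law2 (qq_add w (p b) (p c) (p e)) (c1 b c e hbc (by omega) (by omega))) m3
      (norm_nonneg _) ?_ ?_
    · have e1 := nq c e
      have e2 := nq b e
      show ‖q b e‖ ≤ ‖q c e‖
      rw [e1, e2]
      exact mul_le_mul_of_nonneg_right h4 hwn.le
    · rw [norm_pos_iff]
      intro h
      have h5 := c1 b c e hbc (by omega) (by omega)
      have h6 : q c e = 0 := h
      rw [h6] at h5
      simp [cx] at h5
  have T3 : (θ d f - θ a d) + (θ d f - θ a f) ≤ Real.pi := by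
    have m1 := na d (by omega) (by omega)
    have m2 := pf d (by omega) (by omega)
    have m3 := s1 a d f (by omega) (by omega) hfa
    have m4 := s3 a d f (by omega) (by omega) hfa
    refine sumle (by linarith) (by linarith)
      (lt_pi_of (by linarith) (by linarith [hhi d f, hlo a d]) m3) ?_
    refine cmp_ge (law1 (qq_add w (p a) (p d) (p f)) (c1 a d f (by omega) (by omega) hfa)).symm m4
      (norm_nonneg _) ?_ ?_
    · have e1 := nq a d
      have e2 := nq a f
      show ‖q a d‖ ≤ ‖q a f‖
      rw [e1, e2]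
      exact mul_le_mul_of_nonneg_right h1 hwn.le
    · rw [norm_pos_iff]
      intro h
      have h5 := c3 a d f (by omega) (by omega) hfa
      have h6 : q a f = 0 := h
      rw [h6] at h5
      simp [cx] at h5
  have T4 : (θ c f - θ a c) + (θ a f - θ a c) ≤ Real.pi := by
    have m1 := na c (by omega) (by omega)
    have m2 := pf c (by omega) (by omega)
    have m3 := s1 a c f (by omega) (by omega) hfa
    have m4 := s2 a c f (by omega) (by omega) hfa
    refine sumle (by linarith) (by linarith)
      (lt_pi_of (by linarith) (by linarith [hhi c f, hlo a c]) m3) ?_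
    refine cmp_ge (law2 (qq_add w (p a) (p c) (p f)) (c1 a c f (by omega) (by omega) hfa)).symm m4
      (norm_nonneg _) ?_ ?_
    · have e1 := nq c f
      have e2 := nq a f
      show ‖q c f‖ ≤ ‖q a f‖
      rw [e1, e2]
      exact mul_le_mul_of_nonneg_right h2 hwn.le
    · rw [norm_pos_iff]
      intro h
      have h5 := c2 a c f (by omega) (by omega) hfa
      have h6 : q a f = 0 := h
      rw [h6] at h5
      simp [cx] at h5
  have g1 := k1 d e (by omega) hde hef
  have g2 := k2 b d hab (by omega) (by omega)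
  have g3 := k1 c e (by omega) (by omega) hef
  have g4 := k2 b c hab hbc (by omega)
  rw [haf] at T3 T4
  linarith

end Pool.Agent.W579.EL
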